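import Pool.Agent.Y994.KW.Stm
import Pool.Agent.H974R2.RSW2

/-! # Crossings in the coordinates of the tiles (project KW, helper994) -/

set_option autoImplicit false

namespace Pool.Agent.Y721.KW

open H974 Finset Y994.KW

/-! ### Linking crossings -/

theorem link {F S : Set Edg} {a b c d : ℤ} (hab : a < b) (hcd : c < d)
    (hS : (↑(RE a b c d) : Set Edg) ⊆ S) {G1 G2 : Set Edg} (hG1 : G1 ⊆ F ∩ S) (hG2 : G2 ⊆ F ∩ S)
    (hH1 : ∀ x y, ((x, y, true) : Edg) ∈ G1 → a ≤ x → x < b → c ≤ y ∧ y ≤ d)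
    (hV1 : ∀ x y, ((x, y, false) : Edg) ∈ G1 → a < x → x < b → c ≤ y ∧ y < d)
    (hV2 : ∀ x y, ((x, y, false) : Edg) ∈ G2 → c ≤ y → y < d → a ≤ x ∧ x ≤ b)
    (hH2 : ∀ x y, ((x, y, true) : Edg) ∈ G2 → c < y → y < d → a ≤ x ∧ x < b)
    {u1 v1 u2 v2 : Vtx} (h1 : Reach G1 u1 v1) (hu1 : u1.1 ≤ a) (hv1 : b ≤ v1.1)
    (h2 : Reach G2 u2 v2) (hu2 : u2.2 ≤ c) (hv2 : d ≤ v2.2) : Reach (F ∩ S) u1 u2 := by
  obtain ⟨y1, y2, p1, p2, p3, p4⟩ := sub_LR hab hH1 hV1 h1 hu1 hv1
  obtain ⟨x1, x2, q1, q2, q3, q4⟩ := sub_TB hcd hV2 hH2 h2 hu2 hv2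
  have m := crossings_meet hab hcd.le (F := F) p2 q1
    (p3.mono (by rintro e ⟨h5, h6⟩; exact ⟨(hG1 h5).1, h6⟩))
    (q3.mono (by rintro e ⟨h5, h6⟩; exact ⟨(hG2 h5).1, h6⟩))
  have m' : Reach (F ∩ S) (a, y1) (x1, c) := m.mono (by rintro e ⟨h5, h6⟩; exact ⟨h5, hS h6⟩)
  exact (p4.mono hG1).trans (m'.trans (q4.mono hG2).symm)

/-! ### The staircase -/

/-- the lower left corner of the `k`-th step -/
def Lk (a : ℤ) (k : ℕ) : ℤ := ((k : ℤ) - 1) * a

theorem Lk_succ (a : ℤ) (k : ℕ) : Lk a (k + 1) = Lk a k + a := by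
  unfold Lk
  push_cast
  ring

/-- the crossings of the `k`-th step -/
def Stair (a : ℤ) (k : ℕ) (F : Finset Edg) : Prop :=
  LRc (Lk a k) (Lk a k + 2 * a) (Lk a k) (Lk a k + a) F ∧
    TBc (Lk a k + a) (Lk a k + 2 * a) (Lk a k) (Lk a k + 2 * a) F

theorem Stair.mono {a : ℤ} {k : ℕ} {F G : Finset Edg} (h : F ⊆ G) (hF : Stair a k F) :
    Stair a k G := ⟨hF.1.mono h, hF.2.mono h⟩

/-- the edges whose tiles are in the strip -/
def Str (a : ℤ) : Set Edg := {e | if e.2.2 then -a ≤ e.1 - e.2.1 ∧ e.1 - e.2.1 < 2 * a else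
  -a ≤ e.1 - e.2.1 - 1 ∧ e.1 - e.2.1 - 1 < 2 * a}

theorem LRE_Str {a : ℤ} (k : ℕ) :
    (↑(RE (Lk a k) (Lk a k + 2 * a) (Lk a k) (Lk a k + a)) : Set Edg) ⊆ Str a := by
  rintro ⟨x, y, _ | _⟩ h
  · simp only [mem_coe, mem_RE_false] at h
    simp only [Str, Set.mem_ofPred_eq, Bool.false_eq_true, if_false]
    omega
  · simp only [mem_coe, mem_RE_true] at h
    simp only [Str, Set.mem_ofPred_eq, if_true]
    omega

theorem TBE_Str {a : ℤ} (k : ℕ) :
    (↑(RE (Lk a k + a) (Lk a k + 2 * a) (Lk a k) (Lk a k + 2 * a)) : Set Edg) ⊆ Str a := by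
  rintro ⟨x, y, _ | _⟩ h
  · simp only [mem_coe, mem_RE_false] at h
    simp only [Str, Set.mem_ofPred_eq, Bool.false_eq_true, if_false]
    omega
  · simp only [mem_coe, mem_RE_true] at h
    simp only [Str, Set.mem_ofPred_eq, if_true]
    omega

/-- the crossings of the steps form a long path -/
theorem stair_path {a : ℤ} (ha : 0 < a) (m : ℕ) {F : Finset Edg} (h : ∀ k ≤ m, Stair a k F) :
    ∃ u v : Vtx, u.1 = Lk a 0 ∧ u.2 ≤ Lk a 0 + a ∧ v.1 = Lk a m + 2 * a ∧ Lk a m ≤ v.2 ∧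
      Reach (↑F ∩ Str a) u v := by
  have hLR : ∀ k, (↑F : Set Edg) ∩ ↑(LRE (Lk a k) (Lk a k + 2 * a) (Lk a k) (Lk a k + a)) ⊆
      ↑F ∩ Str a := by
    intro k e he
    exact ⟨he.1, LRE_Str k (LRE_subset_RE he.2)⟩
  have hTB : ∀ k, (↑F : Set Edg) ∩
      ↑(TBE (Lk a k + a) (Lk a k + 2 * a) (Lk a k) (Lk a k + 2 * a)) ⊆ ↑F ∩ Str a := by
    intro k e he
    exact ⟨he.1, TBE_Str k (TBE_subset_RE he.2)⟩
  have key : ∀ m, (∀ k ≤ m, Stair a k F) → ∀ y y' : ℤ,
      (Lk a m ≤ y ∧ y ≤ Lk a m + a) →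
      Reach (↑F ∩ ↑(LRE (Lk a m) (Lk a m + 2 * a) (Lk a m) (Lk a m + a))) (Lk a m, y)
        (Lk a m + 2 * a, y') →
      ∃ y0, y0 ≤ Lk a 0 + a ∧ Reach (↑F ∩ Str a) (Lk a 0, y0) (Lk a m, y) := by
    intro m
    induction m with
    | zero =>
      intro h y y' hy hr
      exact ⟨y, hy.2, Reach.refl _ _⟩
    | succ m ih =>
      intro h y y' hy hr
      obtain ⟨⟨z, z', hz, hz', hrz⟩, ⟨x, x', hx, hx', hrx⟩⟩ := h m (Nat.le_succ m)
      obtain ⟨y0, hy0, hr0⟩ := ih (fun k hk => h k (hk.trans (Nat.le_succ m))) z z' hz hrz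
      -- the first square
      have l1 : Reach (↑F ∩ Str a) (Lk a m, z) (x, Lk a m) := by
        refine link (a := Lk a m + a) (b := Lk a m + 2 * a) (c := Lk a m) (d := Lk a m + a)
          (by omega) (by omega) ?_ (hLR m) (hTB m) ?_ ?_ ?_ ?_ hrz (by simp only; omega)
          (by simp only; omega) hrx (by simp only; omega) (by simp only; omega)
        · refine Set.Subset.trans ?_ (LRE_Str (a := a) m)
          rintro ⟨x, y, _ | _⟩ h
          · simp only [mem_coe, mem_RE_false] at h ⊢; omega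
          · simp only [mem_coe, mem_RE_true] at h ⊢; omega
        · rintro x y ⟨-, h⟩ _ _
          simp only [mem_coe, mem_LRE_true] at h; omega
        · rintro x y ⟨-, h⟩ _ _
          simp only [mem_coe, mem_LRE_false] at h; omega
        · rintro x y ⟨-, h⟩ _ _
          simp only [mem_coe, mem_TBE_false] at h; omega
        · rintro x y ⟨-, h⟩ _ _
          simp only [mem_coe, mem_TBE_true] at h; omega
      -- the second square
      have hs := Lk_succ a m
      rw [hs] at hr hy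
      have l2 : Reach (↑F ∩ Str a) (Lk a m + a, y) (x, Lk a m) := by
        refine link (a := Lk a m + a) (b := Lk a m + 2 * a) (c := Lk a m + a) (d := Lk a m + 2 * a)
          (by omega) (by omega) ?_ ?_ (hTB m) ?_ ?_ ?_ ?_ hr (by simp only; omega)
          (by simp only; omega) hrx (by simp only; omega) (by simp only; omega)
        · refine Set.Subset.trans ?_ (TBE_Str (a := a) m)
          rintro ⟨x, y, _ | _⟩ h
          · simp only [mem_coe, mem_RE_false] at h ⊢; omega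
          · simp only [mem_coe, mem_RE_true] at h ⊢; omega
        · have h5 := hLR (m + 1)
          rw [hs] at h5
          exact h5
        · rintro x y ⟨-, h⟩ _ _
          simp only [mem_coe, mem_LRE_true] at h; omega
        · rintro x y ⟨-, h⟩ _ _
          simp only [mem_coe, mem_LRE_false] at h; omega
        · rintro x y ⟨-, h⟩ _ _
          simp only [mem_coe, mem_TBE_false] at h; omega
        · rintro x y ⟨-, h⟩ _ _
          simp only [mem_coe, mem_TBE_true] at h; omega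
      refine ⟨y0, hy0, ?_⟩
      rw [hs]
      exact hr0.trans (l1.trans l2.symm)
  obtain ⟨⟨y, y', hy, hy', hr⟩, -⟩ := h m le_rfl
  obtain ⟨y0, hy0, hr0⟩ := key m h y y' hy hr
  exact ⟨(Lk a 0, y0), (Lk a m + 2 * a, y'), rfl, hy0, rfl, hy'.1, hr0.trans (hr.mono (hLR m))⟩

/-! ### From edges to tiles -/

/-- the tile of an edge -/
def tle (δ s : ℤ) (e : Edg) : Pt :=
  if e.2.2 then (e.1 + e.2.1 + δ, e.1 - e.2.1 + s) else (e.1 + e.2.1 + δ, e.1 - e.2.1 - 1 + s)

theorem tle_inj (δ s : ℤ) : Function.Injective (tle δ s) := by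
  rintro ⟨x, y, b⟩ ⟨x', y', b'⟩ h
  cases b <;> cases b' <;>
    simp only [tle, if_true, Bool.false_eq_true, if_false, Prod.mk.injEq, and_true,
      Bool.true_eq_false, and_false] at h ⊢ <;> omega

/-- the embedding of the edges into the tiles -/
def tleE (δ s : ℤ) : Edg ↪ Pt := ⟨tle δ s, tle_inj δ s⟩

theorem tleE_apply (δ s : ℤ) (e : Edg) : tleE δ s e = tle δ s e := rfl

/-- the corner of a vertex -/
def crn (δ s : ℤ) (v : Vtx) : Pt := (v.1 + v.2 + δ, v.1 - v.2 + s)

theorem tiles_of_reach {δ s ε : ℤ} (hε : (δ + s - ε) % 2 = 0) {G : Set Edg} {T : Finset Pt}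
    (hT : ∀ e ∈ G, tle δ s e ∈ T) {u v : Vtx} (h : Reach G u v) :
    Relation.ReflTransGen (OB ε T) (crn δ s u) (crn δ s v) := by
  have hp : ∀ w : Vtx, Pty ε (crn δ s w) := by
    intro w
    unfold Pty crn
    simp only
    omega
  induction h with
  | refl => exact Relation.ReflTransGen.refl
  | @tail w w' _ hs ih =>
    refine ih.tail ⟨hp _, hp _, ?_⟩
    obtain ⟨⟨x, y, b⟩, he, hcase⟩ := hs
    have ht := hT _ he
    cases b
    · simp only [tle, Bool.false_eq_true, if_false] at ht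
      simp only [src_mk, tgt_false] at hcase
      rcases hcase with ⟨rfl, rfl⟩ | ⟨rfl, rfl⟩
      · right; right; right
        refine ⟨?_, ?_⟩
        · simp only [crn, Prod.mk_add_mk, Prod.mk.injEq]
          constructor <;> ring
        · simp only [crn]
          convert ht using 2
          ring
      · right; right; left
        refine ⟨?_, ?_⟩
        · simp only [crn, Prod.mk_add_mk, Prod.mk.injEq]
          constructor <;> ring
        · simp only [crn]
          convert ht using 2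
          ring
    · simp only [tle, if_true] at ht
      simp only [src_mk, tgt_true] at hcase
      rcases hcase with ⟨rfl, rfl⟩ | ⟨rfl, rfl⟩
      · left
        refine ⟨?_, ht⟩
        simp only [crn, Prod.mk_add_mk, Prod.mk.injEq]
        constructor <;> ring
      · right; left
        refine ⟨?_, ht⟩
        simp only [crn, Prod.mk_add_mk, Prod.mk.injEq]
        constructor <;> ring

/-- a path from the left to the right contains a crossing of the rectangle -/
theorem sub_HC {ε : ℤ} {w : ℕ} (hw : 1 ≤ w) {T : Finset Pt} {x y : Pt}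
    (h : Relation.ReflTransGen (OB ε T) x y) (hx : x.1 ≤ 0) (hy : (w : ℤ) ≤ y.1) :
    HC ε w (T.filter fun p => 0 ≤ p.1 ∧ p.1 < w) := by
  have key : ∀ y, Relation.ReflTransGen (OB ε T) x y →
      HC ε w (T.filter fun p => 0 ≤ p.1 ∧ p.1 < w) ∨ y.1 ≤ 0 ∨ (0 ≤ y.1 ∧ y.1 < w ∧
        ∃ x0 : Pt, x0.1 = 0 ∧
          Relation.ReflTransGen (OB ε (T.filter fun p => 0 ≤ p.1 ∧ p.1 < w)) x0 y) := by
    intro y hy
    induction hy with
    | refl => exact Or.inr (Or.inl hx)
    | @tail y y' _ hs ih =>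
      obtain ⟨hp, hp', hs⟩ := hs
      -- the step inside the strip
      have hstep : 0 ≤ min y.1 y'.1 → min y.1 y'.1 < w →
          OB ε (T.filter fun p => 0 ≤ p.1 ∧ p.1 < w) y y' := by
        intro h1 h2
        refine ⟨hp, hp', ?_⟩
        rcases hs with ⟨e1, e2⟩ | ⟨e1, e2⟩ | ⟨e1, e2⟩ | ⟨e1, e2⟩
        · left
          refine ⟨e1, ?_⟩
          rw [mem_filter]
          rw [e1] at h1 h2
          simp only [Prod.fst_add] at h1 h2
          exact ⟨e2, by omega, by omega⟩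
        · right; left
          refine ⟨e1, ?_⟩
          rw [mem_filter]
          rw [e1] at h1 h2
          simp only [Prod.fst_add] at h1 h2
          exact ⟨e2, by omega, by omega⟩
        · right; right; left
          refine ⟨e1, ?_⟩
          rw [mem_filter]
          refine ⟨e2, ?_, ?_⟩
          · simp only
            rw [e1] at h1 ⊢
            simp only [Prod.fst_add] at h1 ⊢
            omega
          · simp only
            rw [e1] at h2 ⊢
            simp only [Prod.fst_add] at h2 ⊢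
            omega
        · right; right; right
          refine ⟨e1, ?_⟩
          rw [mem_filter]
          refine ⟨e2, ?_, ?_⟩
          · simp only
            rw [e1] at h1 ⊢
            simp only [Prod.fst_add] at h1 ⊢
            omega
          · simp only
            rw [e1] at h2 ⊢
            simp only [Prod.fst_add] at h2 ⊢
            omega
      have hd : y'.1 = y.1 + 1 ∨ y'.1 = y.1 - 1 := by
        rcases hs with ⟨e1, e2⟩ | ⟨e1, e2⟩ | ⟨e1, e2⟩ | ⟨e1, e2⟩
        · left; rw [e1]; simp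
        · right; rw [e1]; simp
        · right; rw [e1]; simp; ring
        · left; rw [e1]; simp
      rcases ih with ih | ih | ⟨ih1, ih2, x0, ih3, ih4⟩
      · exact Or.inl ih
      · by_cases h1 : y'.1 ≤ 0
        · exact Or.inr (Or.inl h1)
        · have h2 : y.1 = 0 := by omega
          have h3 : y'.1 = 1 := by omega
          have h4 := hstep (by omega) (by omega)
          have h5 : Relation.ReflTransGen (OB ε (T.filter fun p => 0 ≤ p.1 ∧ p.1 < w)) y y' :=
            Relation.ReflTransGen.single h4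
          by_cases h6 : w = 1
          · left
            exact ⟨y, y', h2, by omega, h5⟩
          · right; right
            exact ⟨by omega, by omega, y, h2, h5⟩
      · by_cases h1 : y'.1 < 0
        · exact Or.inr (Or.inl (by omega))
        · have h4 := hstep (by omega) (by omega)
          have h5 := ih4.tail h4
          by_cases h6 : y'.1 = w
          · left
            exact ⟨x0, y', ih3, h6, h5⟩
          · right; right
            exact ⟨by omega, by omega, x0, ih3, h5⟩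
  rcases key y h with h1 | h1 | ⟨h1, h2, -⟩
  · exact h1
  · omega
  · omega

theorem HC.mono {ε : ℤ} {w : ℕ} {F G : Finset Pt} (h : F ⊆ G) (hF : HC ε w F) : HC ε w G := by
  obtain ⟨x, y, h1, h2, h3⟩ := hF
  refine ⟨x, y, h1, h2, Relation.ReflTransGen.mono (fun a b hab => ?_) x y h3⟩
  obtain ⟨h4, h5, h6⟩ := hab
  refine ⟨h4, h5, ?_⟩
  rcases h6 with h6 | h6 | h6 | h6
  · exact Or.inl ⟨h6.1, h h6.2⟩
  · exact Or.inr (Or.inl ⟨h6.1, h h6.2⟩)
  · exact Or.inr (Or.inr (Or.inl ⟨h6.1, h h6.2⟩))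
  · exact Or.inr (Or.inr (Or.inr ⟨h6.1, h h6.2⟩))

theorem mem_Tl {w h : ℕ} {p : Pt} : p ∈ Tl w h ↔ (0 ≤ p.1 ∧ p.1 < w) ∧ 0 ≤ p.2 ∧ p.2 < h := by
  unfold Tl
  rw [mem_image]
  constructor
  · rintro ⟨q, hq, rfl⟩
    rw [mem_product, mem_range, mem_range] at hq
    simp only
    omega
  · rintro ⟨⟨h1, h2⟩, h3, h4⟩
    refine ⟨(p.1.toNat, p.2.toNat), ?_, ?_⟩
    · rw [mem_product, mem_range, mem_range]
      simp only
      omega
    · apply Prod.ext
      · simp only; omega
      · simp only; omega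


/-- the crossings of the steps give a crossing of the rectangle of tiles -/
theorem HC_of_stair {a δ ε : ℤ} (ha : 0 < a) (hε : (δ + a - ε) % 2 = 0) {w N m : ℕ} (hw : 1 ≤ w)
    (hδ : δ ≤ 0) (hN : 3 * a ≤ N) (hm : (w : ℤ) ≤ 2 * m * a + δ) {F : Finset Edg}
    (h : ∀ k ≤ m, Stair a k F) : HC ε w (F.map (tleE δ a) ∩ Tl w N) := by
  obtain ⟨u, v, hu1, hu2, hv1, hv2, hr⟩ := stair_path ha m h
  have hT : ∀ e ∈ (↑F ∩ Str a : Set Edg),
      tle δ a e ∈ (F.map (tleE δ a)).filter (fun p : Pt => 0 ≤ p.2 ∧ p.2 < (N : ℤ)) := by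
    rintro ⟨x, y, _ | _⟩ ⟨he, hs⟩
    · rw [mem_filter]
      refine ⟨mem_map_of_mem (tleE δ a) he, ?_⟩
      simp only [Str, Set.mem_ofPred_eq, Bool.false_eq_true, if_false] at hs
      simp only [tle, Bool.false_eq_true, if_false]
      omega
    · rw [mem_filter]
      refine ⟨mem_map_of_mem (tleE δ a) he, ?_⟩
      simp only [Str, Set.mem_ofPred_eq, if_true] at hs
      simp only [tle, if_true]
      omega
  have h1 := tiles_of_reach hε hT hr
  have e0 : Lk a 0 = -a := by unfold Lk; push_cast; ring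
  have em : Lk a m = m * a - a := by unfold Lk; ring
  have h2 := sub_HC hw h1 (by simp only [crn]; rw [e0] at hu1 hu2; omega)
    (by
      simp only [crn]
      rw [em] at hv1 hv2
      have e3 : (2 * m * a : ℤ) = m * a + m * a := by ring
      omega)
  refine HC.mono ?_ h2
  intro p hp
  rw [mem_filter, mem_filter] at hp
  rw [mem_inter, mem_Tl]
  exact ⟨hp.1.1, hp.2, hp.1.2⟩

/-! ### Probabilities -/

theorem prF_eq (S : Finset Pt) (A : Finset Pt → Prop) :
    prF S A = Pr (fun _ => (1/2 : ℝ)) S A := by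
  classical
  unfold prF Pr Ex
  have h1 : ∀ F ∈ S.powerset, (∏ e ∈ F, ((fun _ => (1/2 : ℝ)) : Pt → ℝ) e) *
      (∏ e ∈ S \ F, (1 - ((fun _ => (1/2 : ℝ)) : Pt → ℝ) e)) * ind (A F) =
      (if A F then ((1/2 : ℝ)) ^ S.card else 0) := by
    intro F hF
    rw [mem_powerset] at hF
    have e1 : (1 - (1/2 : ℝ)) = 1/2 := by norm_num
    simp only [prod_const, e1]
    rw [← pow_add, add_comm, card_sdiff_add_card_eq_card hF]
    unfold ind
    split_ifs with h
    · rw [mul_one]
    · rw [mul_zero]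
  rw [sum_congr rfl h1, ← sum_filter, sum_const, nsmul_eq_mul, one_div, inv_pow, div_eq_mul_inv]

theorem Pr_all {S : Finset Edg} {A : ℕ → Finset Edg → Prop} (hA : ∀ k, IncrE S (A k)) {c : ℝ}
    (hc : 0 ≤ c) (m : ℕ) (h : ∀ k ≤ m, c ≤ Pr (fun _ => (1/2 : ℝ)) S (A k)) :
    c ^ (m + 1) ≤ Pr (fun _ => (1/2 : ℝ)) S (fun F => ∀ k ≤ m, A k F) := by
  have ok : Ok (fun _ : Edg => (1/2 : ℝ)) := okq (by norm_num) (by norm_num)
  induction m with
  | zero =>
    rw [zero_add, pow_one]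
    refine (h 0 le_rfl).trans (Pr_mono ok fun F _ hF k hk => ?_)
    rw [Nat.le_zero.mp hk]
    exact hF
  | succ m ih =>
    have h1 := ih (fun k hk => h k (hk.trans (Nat.le_succ m)))
    have h2 := h (m + 1) le_rfl
    have h3 : IncrE S (fun F => ∀ k ≤ m, A k F) := fun F G hFG hG hF k hk =>
      hA k F G hFG hG (hF k hk)
    have h4 := Pr_harris ok h3 (hA (m + 1))
    calc c ^ (m + 1 + 1) = c ^ (m + 1) * c := pow_succ _ _
      _ ≤ _ := mul_le_mul h1 h2 hc (Pr_nonneg ok _ _)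
      _ ≤ _ := h4
      _ ≤ _ := Pr_mono ok fun F _ hF k hk => by
        rcases Nat.lt_or_ge m k with h5 | h5
        · have : k = m + 1 := by omega
          rw [this]
          exact hF.2
        · exact hF.1 k h5

theorem Stair_incr (S : Finset Edg) (a : ℤ) (k : ℕ) : IncrE S (Stair a k) :=
  fun _ _ h _ hF => hF.mono h

theorem pr_Stair {a : ℤ} (ha : 2 ≤ a) (k : ℕ) {S : Finset Edg}
    (h1 : LRE (Lk a k) (Lk a k + 2 * a) (Lk a k) (Lk a k + a) ⊆ S)
    (h2 : TBE (Lk a k + a) (Lk a k + 2 * a) (Lk a k) (Lk a k + 2 * a) ⊆ S) :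
    (1/2 : ℝ) ^ 94 ≤ Pr (fun _ => (1/2 : ℝ)) S (Stair a k) := by
  have ok : Ok (fun _ : Edg => (1/2 : ℝ)) := okq (by norm_num) (by norm_num)
  have h3 := Pr_harris ok (LRc_incr S (Lk a k) (Lk a k + 2 * a) (Lk a k) (Lk a k + a))
    (TBc_incr S (Lk a k + a) (Lk a k + 2 * a) (Lk a k) (Lk a k + 2 * a))
  rw [pr_LRc _ h1, pr_TBc _ h2] at h3
  have e1 : Lk a k + 2 * a - Lk a k = 2 * a := by ring
  have e2 : Lk a k + a - Lk a k = a := by ring
  have e3 : Lk a k + 2 * a - (Lk a k + a) = a := by ring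
  rw [e1, e2, e3] at h3
  have h4 : (1/2 : ℝ) ^ 47 ≤ hh (1/2) (2 * a) a :=
    rsw (n := a / 2) (by omega) (by omega) (by omega) (by omega)
  refine le_trans ?_ h3
  have h5 : (0:ℝ) ≤ (1/2 : ℝ) ^ 47 := by positivity
  calc (1/2 : ℝ) ^ 94 = (1/2 : ℝ) ^ 47 * (1/2 : ℝ) ^ 47 := by rw [← pow_add]
    _ ≤ _ := mul_le_mul h4 h4 h5 (h5.trans h4)

/-- large rectangles -/
theorem hc_large (K : ℕ) (hK : 1 ≤ K) (N : ℕ) (hN : 6 ≤ N) (ε : ℤ) :
    ((1/2 : ℝ) ^ 94) ^ (2 * K + 1 + 1) ≤ prF (Tl (K * N) N) (HC ε (K * N)) := by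
  obtain ⟨a, haN⟩ : ∃ a : ℤ, a = (N : ℤ) / 3 := ⟨_, rfl⟩
  have ha2 : 2 ≤ a := by omega
  have h3a : 3 * a ≤ N := by omega
  have h4a : (N : ℤ) ≤ 4 * a := by omega
  obtain ⟨δ, hδ0, hδ1, hδ⟩ : ∃ δ : ℤ, δ ≤ 0 ∧ -1 ≤ δ ∧ (δ + a - ε) % 2 = 0 := by
    rcases Int.emod_two_eq_zero_or_one (a - ε) with h | h
    · exact ⟨0, le_rfl, by norm_num, by rw [zero_add]; exact h⟩
    · exact ⟨-1, by norm_num, le_rfl, by omega⟩
  have ok : Ok (fun _ : Edg => (1/2 : ℝ)) := okq (by norm_num) (by norm_num)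
  have hKN : 1 ≤ K * N := Nat.mul_pos hK (by omega)
  have hm : ((K * N : ℕ) : ℤ) ≤ 2 * ((2 * K + 1 : ℕ) : ℤ) * a + δ := by
    push_cast
    have e1 : (K : ℤ) * N ≤ K * (4 * a) := by
      apply mul_le_mul_of_nonneg_left h4a
      positivity
    have e2 : (2 * (2 * K + 1) * a : ℤ) = K * (4 * a) + 2 * a := by ring
    rw [e2]
    omega
  -- a large set of edges
  obtain ⟨M, hM⟩ : ∃ M : ℤ, M = (2 * K + 10) * a + K * N + N + 10 := ⟨_, rfl⟩
  have hM1 : (0 : ℤ) ≤ K * N := by positivity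
  have hM2 : (0 : ℤ) ≤ K * a := by positivity
  have hM' : M = 2 * (K * a) + 10 * a + K * N + N + 10 := by rw [hM]; ring
  have hL : ∀ k ≤ 2 * K + 1, -a ≤ Lk a k ∧ Lk a k ≤ 2 * (K * a) := by
    intro k hk
    have e1 : Lk a k = k * a - a := by unfold Lk; ring
    have e2 : (k : ℤ) * a ≤ (2 * K + 1) * a := by
      apply mul_le_mul_of_nonneg_right _ (by omega)
      exact_mod_cast hk
    have e3 : ((2 * K + 1) * a : ℤ) = 2 * (K * a) + a := by ring
    have e4 : (0 : ℤ) ≤ k * a := by positivity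
    omega
  have hsub : Tl (K * N) N ⊆ (RE (-M) M (-M) M).map (tleE δ a) := by
    intro p hp
    rw [mem_Tl] at hp
    obtain ⟨⟨p1, p2⟩, p3, p4⟩ := hp
    push_cast at p2
    obtain ⟨p, q⟩ := p
    simp only at p1 p2 p3 p4
    rcases Int.emod_two_eq_zero_or_one (p + q - δ - a) with h | h
    · rw [mem_map]
      refine ⟨((p + q - δ - a) / 2, (p - q - δ + a) / 2, true), ?_, ?_⟩
      · rw [mem_RE_true]
        omega
      · rw [tleE_apply]
        simp only [tle, if_true, Prod.mk.injEq]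
        omega
    · rw [mem_map]
      refine ⟨((p + q - δ - a + 1) / 2, (p - q - δ + a - 1) / 2, false), ?_, ?_⟩
      · rw [mem_RE_false]
        omega
      · rw [tleE_apply]
        simp only [tle, Bool.false_eq_true, if_false, Prod.mk.injEq]
        omega
  have hev : ((1/2 : ℝ) ^ 94) ^ (2 * K + 1 + 1) ≤ Pr (fun _ => (1/2 : ℝ)) (RE (-M) M (-M) M)
      (fun F => ∀ k ≤ 2 * K + 1, Stair a k F) := by
    refine Pr_all (fun k => Stair_incr _ a k) (by positivity) (2 * K + 1) fun k hk => ?_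
    have hLk := hL k hk
    refine pr_Stair ha2 k ?_ ?_
    · rintro ⟨x, y, _ | _⟩ h
      · rw [mem_LRE_false] at h
        rw [mem_RE_false]
        omega
      · rw [mem_LRE_true] at h
        rw [mem_RE_true]
        omega
    · rintro ⟨x, y, _ | _⟩ h
      · rw [mem_TBE_false] at h
        rw [mem_RE_false]
        omega
      · rw [mem_TBE_true] at h
        rw [mem_RE_true]
        omega
  refine hev.trans ?_
  have e1 : prF (Tl (K * N) N) (HC ε (K * N)) =
      Pr (fun _ => (1/2 : ℝ)) (Tl (K * N) N) (fun F => HC ε (K * N) (F ∩ Tl (K * N) N)) := by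
    rw [prF_eq]
    apply Pr_congr
    intro F hF
    rw [inter_eq_left.mpr hF]
  have e2 : Pr (fun _ => (1/2 : ℝ)) ((RE (-M) M (-M) M).map (tleE δ a))
      (fun F => HC ε (K * N) (F ∩ Tl (K * N) N)) =
      Pr (fun _ => (1/2 : ℝ)) (Tl (K * N) N) (fun F => HC ε (K * N) (F ∩ Tl (K * N) N)) := by
    apply Pr_local hsub
    intro F _
    rw [inter_assoc, inter_self]
  rw [e1, ← e2, Pr_map]
  exact Pr_mono ok fun F _ hF => HC_of_stair (by omega) hδ hKN hδ0 h3a hm hF

/-! ### Small rectangles -/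

theorem prF_full {S : Finset Pt} {A : Finset Pt → Prop} (h : A S) :
    ((1/2 : ℝ)) ^ S.card ≤ prF S A := by
  classical
  unfold prF
  rw [one_div, inv_pow, inv_eq_one_div]
  apply div_le_div_of_nonneg_right _ (by positivity)
  have : 1 ≤ (S.powerset.filter A).card := by
    apply card_pos.mpr
    exact ⟨S, mem_filter.mpr ⟨mem_powerset_self S, h⟩⟩
  exact_mod_cast this

theorem Tl_card (w h : ℕ) : (Tl w h).card ≤ w * h := by
  unfold Tl
  refine card_image_le.trans ?_
  rw [card_product, card_range, card_range]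

theorem HC_full (ε : ℤ) (w h : ℕ) (hh : 1 ≤ h) : HC ε w (Tl w h) := by
  have key : ∀ j : ℕ, j ≤ w → Relation.ReflTransGen (OB ε (Tl w h)) ((0 : ℤ), (ε + 0) % 2)
      ((j : ℤ), (ε + j) % 2) := by
    intro j
    induction j with
    | zero => intro _; exact Relation.ReflTransGen.refl
    | succ j ih =>
      intro hj
      refine (ih (by omega)).tail ⟨?_, ?_, ?_⟩
      · unfold Pty; simp only; omega
      · unfold Pty; simp only; push_cast; omega
      · rcases Int.emod_two_eq_zero_or_one (ε + j) with h1 | h1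
        · left
          refine ⟨?_, ?_⟩
          · rw [h1]
            apply Prod.ext
            · simp
            · simp only [Prod.snd_add]; push_cast; omega
          · rw [mem_Tl, h1]
            simp only
            omega
        · right; right; right
          refine ⟨?_, ?_⟩
          · rw [h1]
            apply Prod.ext
            · simp
            · simp only [Prod.snd_add]; push_cast; omega
          · rw [mem_Tl]
            simp only
            push_cast
            omega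
  exact ⟨_, _, rfl, rfl, key w le_rfl⟩

theorem hc_small (K : ℕ) (N : ℕ) (hN : 1 ≤ N) (hN5 : N < 6) (ε : ℤ) :
    (1/2 : ℝ) ^ (25 * K) ≤ prF (Tl (K * N) N) (HC ε (K * N)) := by
  refine le_trans ?_ (prF_full (HC_full ε (K * N) N hN))
  apply pow_le_pow_of_le_one (by norm_num) (by norm_num)
  refine (Tl_card _ _).trans ?_
  have h1 : N * N ≤ 25 := by nlinarith
  calc K * N * N = K * (N * N) := by ring
    _ ≤ K * 25 := Nat.mul_le_mul_left K h1
    _ = 25 * K := by ring

/-! ### Vertical crossings -/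

/-- the reflection -/
def swp : Pt ↪ Pt := ⟨Prod.swap, Prod.swap_injective⟩

theorem OB_swap {ε : ℤ} {F : Finset Pt} {x y : Pt} (h : OB ε F x y) :
    OB ε (F.map swp) x.swap y.swap := by
  obtain ⟨h1, h2, h3⟩ := h
  have hm : ∀ p : Pt, p ∈ F → p.swap ∈ F.map swp := fun p hp => mem_map_of_mem swp hp
  refine ⟨?_, ?_, ?_⟩
  · unfold Pty at h1 ⊢
    simp only [Prod.fst_swap, Prod.snd_swap]
    omega
  · unfold Pty at h2 ⊢
    simp only [Prod.fst_swap, Prod.snd_swap]
    omega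
  · rcases h3 with ⟨h3, h4⟩ | ⟨h3, h4⟩ | ⟨h3, h4⟩ | ⟨h3, h4⟩
    · left
      refine ⟨?_, hm _ h4⟩
      rw [h3]
      rfl
    · right; left
      refine ⟨?_, hm _ h4⟩
      rw [h3]
      rfl
    · right; right; right
      refine ⟨?_, hm _ h4⟩
      rw [h3]
      apply Prod.ext
      · simp
      · simp
    · right; right; left
      refine ⟨?_, hm _ h4⟩
      rw [h3]
      apply Prod.ext
      · simp
      · simp

theorem VC_swap {ε : ℤ} {w : ℕ} {F : Finset Pt} (h : HC ε w F) : VC ε w (F.map swp) := by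
  obtain ⟨x, y, h1, h2, h3⟩ := h
  refine ⟨x.swap, y.swap, h1, h2, ?_⟩
  clear h1 h2
  induction h3 with
  | refl => exact Relation.ReflTransGen.refl
  | tail _ hs ih => exact ih.tail (OB_swap hs)

theorem Tl_swap (w h : ℕ) : (Tl w h).map swp = Tl h w := by
  ext p
  rw [mem_map, mem_Tl]
  constructor
  · rintro ⟨q, hq, rfl⟩
    rw [mem_Tl] at hq
    exact ⟨hq.2, hq.1⟩
  · intro hp
    refine ⟨p.swap, ?_, Prod.swap_swap p⟩
    rw [mem_Tl]
    exact ⟨hp.2, hp.1⟩

theorem vc_of_hc (w h : ℕ) (ε : ℤ) : prF (Tl w h) (HC ε w) ≤ prF (Tl h w) (VC ε w) := by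
  have ok : Ok (fun _ : Pt => (1/2 : ℝ)) := fun _ => ⟨by norm_num, by norm_num⟩
  rw [prF_eq, prF_eq, ← Tl_swap w h, Pr_map]
  exact Pr_mono ok fun F _ hF => VC_swap hF

/-- **RSW in the coordinates of the tiles** -/
theorem t_RSW : S_RSW := by
  intro K hK
  have hc : ∀ (N : ℕ) (ε : ℤ), 1 ≤ N →
      min (((1/2 : ℝ) ^ 94) ^ (2 * K + 1 + 1)) ((1/2 : ℝ) ^ (25 * K)) ≤
        prF (Tl (K * N) N) (HC ε (K * N)) := by
    intro N ε hN
    rcases Nat.lt_or_ge N 6 with h | h
    · exact (min_le_right _ _).trans (hc_small K N hN h ε)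
    · exact (min_le_left _ _).trans (hc_large K hK N h ε)
  refine ⟨min (((1/2 : ℝ) ^ 94) ^ (2 * K + 1 + 1)) ((1/2 : ℝ) ^ (25 * K)), ?_, ?_⟩
  · exact lt_min (by positivity) (by positivity)
  · intro N ε hN
    exact ⟨hc N ε hN, (hc N ε hN).trans (vc_of_hc _ _ ε)⟩

end Pool.Agent.Y721.KW
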